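import Mathlib

/-!
# Marked balls of marked groups

Definitions used in the hand-in on the number of marked balls, the reading lemma (an isomorphism
of marked balls respects words) and the converse (the relations of length at most `2n+1` determine
the ball of radius `n`).
-/

namespace Q17.Balls

/-- A letter: a generator index together with a sign (`true` = the generator, `false` = its
inverse). -/
abbrev Letter (d : ℕ) := Fin d × Bool

/-- The value of a word in the generators `S` and their inverses. -/
def ev {d : ℕ} {G : Type*} [Group G] (S : Fin d → G) (w : List (Letter d)) : G :=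
  (w.map (fun x => if x.2 then S x.1 else (S x.1)⁻¹)).prod

/-- A rooted graph with directed edges labelled by `Fin d`. -/
structure LGraph (d : ℕ) where
  /-- the vertices -/
  V : Type
  /-- `E i x y`: there is an edge labelled `i` from `x` to `y` -/
  E : Fin d → V → V → Prop
  /-- the root -/
  root : V

/-- Isomorphisms of rooted labelled directed graphs: they send the root to the root and preserve
edge directions and labels. -/
structure LGraph.Iso {d : ℕ} (A B : LGraph d) where
  /-- the bijection on vertices -/
  toEquiv : A.V ≃ B.V
  root : toEquiv A.root = B.root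
  edge : ∀ i x y, A.E i x y ↔ B.E i (toEquiv x) (toEquiv y)

/-- Being isomorphic. -/
instance lsetoid (d : ℕ) : Setoid (LGraph d) where
  r A B := Nonempty (LGraph.Iso A B)
  iseqv :=
    { refl := fun A => ⟨⟨Equiv.refl _, rfl, fun _ _ _ => Iff.rfl⟩⟩
      symm := by
        rintro A B ⟨φ⟩
        refine ⟨⟨φ.toEquiv.symm, ?_, ?_⟩⟩
        · rw [Equiv.symm_apply_eq, φ.root]
        · intro i x y
          rw [φ.edge]
          simp
      trans := by
        rintro A B C ⟨φ⟩ ⟨ψ⟩
        refine ⟨⟨φ.toEquiv.trans ψ.toEquiv, ?_, ?_⟩⟩
        · simp [φ.root, ψ.root]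
        · intro i x y
          rw [φ.edge, ψ.edge]
          rfl }

/-- `g` has word length at most `n` with respect to the generators `S` and their inverses. -/
def InBall {d : ℕ} {G : Type*} [Group G] (S : Fin d → G) (n : ℕ) (g : G) : Prop :=
  ∃ w : List (Letter d), w.length ≤ n ∧ ev S w = g

/-- The marked ball of radius `n` of `(G, S)`: the labelled subgraph of the Cayley graph (with an
edge `g → g * S i` labelled `i`) induced on the elements of word length at most `n`, rooted at the
identity. -/
def ball {d : ℕ} (G : Type) [Group G] (S : Fin d → G) (n : ℕ) : LGraph d where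
  V := {g : G // InBall S n g}
  E i x y := (y : G) = (x : G) * S i
  root := ⟨1, [], by simp, by simp [ev]⟩

/-- The set of isomorphism classes of marked balls of radius `n` of marked `d`-generated
groups. -/
def allBalls (d n : ℕ) : Set (Quotient (lsetoid d)) :=
  {c | ∃ (G : Type) (_ : Group G) (S : Fin d → G),
    Subgroup.closure (Set.range S) = ⊤ ∧ c = Quotient.mk (lsetoid d) (ball G S n)}

/-- The set of isomorphism classes of marked balls of radius `n` of finite marked `d`-generated
groups. -/
def finBalls (d n : ℕ) : Set (Quotient (lsetoid d)) :=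
  {c | ∃ (G : Type) (_ : Group G) (S : Fin d → G), Finite G ∧
    Subgroup.closure (Set.range S) = ⊤ ∧ c = Quotient.mk (lsetoid d) (ball G S n)}

/-- `f_d(n)`: the number of marked balls of radius `n` of marked `d`-generated groups. -/
noncomputable def f (d n : ℕ) : ℕ := (allBalls d n).ncard

/-- `g_d(n)`: the number of marked balls of radius `n` of finite marked `d`-generated groups. -/
noncomputable def g (d n : ℕ) : ℕ := (finBalls d n).ncard

theorem finBalls_subset (d n : ℕ) : finBalls d n ⊆ allBalls d n := by
  rintro c ⟨G, hG, S, -, hS, rfl⟩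
  exact ⟨G, hG, S, hS, rfl⟩

section words

variable {d : ℕ} {G : Type*} [Group G]

@[simp] theorem ev_nil (S : Fin d → G) : ev S [] = 1 := by simp [ev]

theorem ev_append (S : Fin d → G) (u v : List (Letter d)) : ev S (u ++ v) = ev S u * ev S v := by
  simp [ev]

theorem ev_cons (S : Fin d → G) (x : Letter d) (v : List (Letter d)) :
    ev S (x :: v) = (if x.2 then S x.1 else (S x.1)⁻¹) * ev S v := by
  simp [ev]

/-- The inverse word. -/
def winv (w : List (Letter d)) : List (Letter d) := (w.map (fun x => (x.1, !x.2))).reverse

@[simp] theorem length_winv (w : List (Letter d)) : (winv w).length = w.length := by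
  simp [winv]

theorem ev_winv (S : Fin d → G) (w : List (Letter d)) : ev S (winv w) = (ev S w)⁻¹ := by
  induction w with
  | nil => simp [winv, ev]
  | cons x w ih =>
    have : winv (x :: w) = winv w ++ [(x.1, !x.2)] := by simp [winv]
    rw [this, ev_append, ih, ev_cons S x, mul_inv_rev]
    congr 1
    rcases x with ⟨i, b⟩
    cases b <;> simp [ev]

theorem ev_map {H : Type*} [Group H] (φ : G →* H) (S : Fin d → G) (w : List (Letter d)) :
    φ (ev S w) = ev (fun i => φ (S i)) w := by
  induction w with
  | nil => simp
  | cons x w ih =>
    rw [ev_cons, ev_cons, map_mul, ih]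
    congr 1
    split_ifs <;> simp

end words

/-- The group element carried by a vertex of a marked ball. -/
def val {d n : ℕ} {G : Type} [Group G] {S : Fin d → G} (x : (ball G S n).V) : G := x.1

/-- The vertex of a short word. -/
def pt {d n : ℕ} {G : Type} [Group G] (S : Fin d → G) (w : List (Letter d)) (hw : w.length ≤ n) :
    (ball G S n).V := ⟨ev S w, w, hw, rfl⟩

@[simp] theorem val_pt {d n : ℕ} {G : Type} [Group G] (S : Fin d → G) (w : List (Letter d))
    (hw : w.length ≤ n) : val (pt S w hw) = ev S w := rfl

theorem val_injective {d n : ℕ} {G : Type} [Group G] {S : Fin d → G} :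
    Function.Injective (val : (ball G S n).V → G) := fun _ _ h => Subtype.ext h

theorem edge_iff {d n : ℕ} {G : Type} [Group G] {S : Fin d → G} (i : Fin d)
    (x y : (ball G S n).V) : (ball G S n).E i x y ↔ val y = val x * S i := Iff.rfl

/-- An isomorphism of marked balls sends the value of each short word to its value. -/
theorem iso_ev {d n : ℕ} {G G' : Type} [Group G] [Group G'] {S : Fin d → G} {S' : Fin d → G'}
    (φ : LGraph.Iso (ball G S n) (ball G' S' n)) (w : List (Letter d)) (hw : w.length ≤ n) :
    val (φ.toEquiv (pt S w hw)) = ev S' w := by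
  induction w using List.reverseRecOn with
  | nil =>
    have h := φ.root
    have h2 : pt S [] hw = (ball G S n).root := by
      apply val_injective
      rw [val_pt, ev_nil]
      rfl
    rw [h2, h, ev_nil]
    rfl
  | append_singleton w x ih =>
    have hw' : w.length ≤ n := by
      simp at hw
      omega
    have ih' := ih hw'
    rcases x with ⟨i, b⟩
    cases b with
    | true =>
      have he : (ball G S n).E i (pt S w hw') (pt S (w ++ [(i, true)]) hw) := by
        rw [edge_iff, val_pt, val_pt, ev_append]
        simp [ev]
      have h2 := (φ.edge i _ _).1 he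
      rw [edge_iff] at h2
      rw [h2, ih', ev_append]
      simp [ev]
    | false =>
      have he : (ball G S n).E i (pt S (w ++ [(i, false)]) hw) (pt S w hw') := by
        rw [edge_iff, val_pt, val_pt, ev_append]
        simp [ev]
      have h2 := (φ.edge i _ _).1 he
      rw [edge_iff, ih'] at h2
      rw [ev_append, h2]
      simp [ev]

/-- Isomorphic balls of radius `n` satisfy the same equalities between words of length at most
`n`. -/
theorem iso_eq_iff {d n : ℕ} {G G' : Type} [Group G] [Group G'] {S : Fin d → G} {S' : Fin d → G'}
    (φ : LGraph.Iso (ball G S n) (ball G' S' n)) (u v : List (Letter d)) (hu : u.length ≤ n)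
    (hv : v.length ≤ n) : ev S u = ev S v ↔ ev S' u = ev S' v := by
  have h1 := iso_ev φ u hu
  have h2 := iso_ev φ v hv
  constructor
  · intro h
    rw [← h1, ← h2]
    congr 2
    exact val_injective h
  · intro h
    rw [← h1, ← h2] at h
    have h3 := φ.toEquiv.injective (val_injective h)
    exact congrArg val h3

/-- The relations of length at most `2n+1` determine the ball of radius `n`. -/
theorem iso_of_rel {d n : ℕ} {G G' : Type} [Group G] [Group G'] {S : Fin d → G}
    {S' : Fin d → G'}
    (h : ∀ w : List (Letter d), w.length ≤ 2 * n + 1 → (ev S w = 1 ↔ ev S' w = 1)) :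
    Nonempty (LGraph.Iso (ball G S n) (ball G' S' n)) := by
  have key : ∀ u v : List (Letter d), u.length + v.length ≤ 2 * n + 1 →
      (ev S u = ev S v ↔ ev S' u = ev S' v) := by
    intro u v huv
    have h1 := h (u ++ winv v) (by simpa using huv)
    rw [ev_append, ev_append, ev_winv, ev_winv, mul_inv_eq_one, mul_inv_eq_one] at h1
    exact h1
  let φ : {g : G // InBall S n g} → {g : G' // InBall S' n g} := fun x =>
    ⟨ev S' x.2.choose, _, x.2.choose_spec.1, rfl⟩
  let ψ : {g : G' // InBall S' n g} → {g : G // InBall S n g} := fun x =>
    ⟨ev S x.2.choose, _, x.2.choose_spec.1, rfl⟩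
  have hφ : ∀ (x : {g : G // InBall S n g}) (w : List (Letter d)), w.length ≤ n →
      ev S w = x.1 → (φ x).1 = ev S' w := by
    intro x w hw hx
    have h1 := x.2.choose_spec
    exact (key _ _ (by have := h1.1; omega)).1 (h1.2.trans hx.symm)
  have hψ : ∀ (x : {g : G' // InBall S' n g}) (w : List (Letter d)), w.length ≤ n →
      ev S' w = x.1 → (ψ x).1 = ev S w := by
    intro x w hw hx
    have h1 := x.2.choose_spec
    exact (key _ _ (by have := h1.1; omega)).2 (h1.2.trans hx.symm)
  let e : {g : G // InBall S n g} ≃ {g : G' // InBall S' n g} :=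
    { toFun := φ
      invFun := ψ
      left_inv := by
        intro x
        apply Subtype.ext
        obtain ⟨w, hw, hx⟩ := x.2
        have h1 := hφ x w hw hx
        rw [hψ (φ x) w hw h1.symm, hx]
      right_inv := by
        intro x
        apply Subtype.ext
        obtain ⟨w, hw, hx⟩ := x.2
        have h1 := hψ x w hw hx
        rw [hφ (ψ x) w hw h1.symm, hx] }
  refine ⟨⟨e, ?_, ?_⟩⟩
  · apply Subtype.ext
    change (φ ⟨1, _⟩).1 = 1
    rw [hφ _ [] (by simp) (by simp)]
    simp
  · intro i x y
    change (y.1 = x.1 * S i) ↔ ((φ y).1 = (φ x).1 * S' i)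
    obtain ⟨u, hu, hx⟩ := x.2
    obtain ⟨v, hv, hy⟩ := y.2
    rw [hφ x u hu hx, hφ y v hv hy, ← hx, ← hy]
    have h1 := key v (u ++ [(i, true)]) (by simp; omega)
    rw [ev_append, ev_append] at h1
    simpa [ev] using h1

end Q17.Balls
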