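import Pool.Agent.Q17.Balls.Upper

/-!
# The lower bound: `2 ^ 2 ^ L ≤ g_d(n)` for `d ≥ 2` and `4 * L + 8 ≤ n`

For every word `h` of length `L` in two letters we construct two permutations `a`, `b` of a finite
set such that `b ^ 3` is a transposition `(x₀ y₀)` and such that the words `u(l)`, `l` of length
`L`, move `x₀` to distinct points, the point for `l = h` being `y₀`. Then `u(l) b³ u(l)⁻¹` and
`b³` commute exactly if `l ≠ h`.
-/

namespace Q17.Balls

open Equiv

theorem exists_perm_extend {α : Type*} [Finite α] (s : Set α) (f : α → α) (hf : Set.InjOn f s) :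
    ∃ σ : Perm α, ∀ i ∈ s, σ i = f i := by
  classical
  have := Fintype.ofFinite α
  obtain ⟨g, hg⟩ := Set.MapsTo.exists_equiv_extend_of_card_eq (t := (Finset.univ : Finset α))
    (by simp) (s := s) (f := f) (fun x _ => by simp) hf
  refine ⟨g.trans (Equiv.subtypeUnivEquiv (by simp)), fun i hi => ?_⟩
  rw [← hg i hi]
  rfl

/-- The finite set on which the permutations act. -/
abbrev X (L : ℕ) : Type := Bool ⊕ (Bool × {l : List Bool // l.length ≤ L} × ZMod 3)

instance (L : ℕ) : Finite {l : List Bool // l.length ≤ L} :=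
  (List.finite_length_le Bool L).to_subtype

instance (L : ℕ) : Finite (X L) := by
  unfold X
  infer_instance

/-- The permutation `b`. -/
def pb (L : ℕ) : Perm (X L) :=
  Equiv.sumCongr (Equiv.swap false true)
    (Equiv.prodCongr (Equiv.refl _) (Equiv.prodCongr (Equiv.refl _) (Equiv.addRight 1)))

theorem pb_inl (L : ℕ) (τ : Bool) : pb L (Sum.inl τ) = Sum.inl (!τ) := by
  cases τ <;> rfl

theorem pb_inr (L : ℕ) (τ : Bool) (l : {l : List Bool // l.length ≤ L}) (e : ZMod 3) :
    pb L (Sum.inr (τ, l, e)) = Sum.inr (τ, l, e + 1) := rfl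

theorem pb_inv_inr (L : ℕ) (τ : Bool) (l : {l : List Bool // l.length ≤ L}) (e : ZMod 3) :
    (pb L)⁻¹ (Sum.inr (τ, l, e)) = Sum.inr (τ, l, e - 1) := by
  rw [Perm.inv_eq_iff_eq, pb_inr]
  simp

open Classical in
/-- The target of the position `l` of the tree `τ`. -/
noncomputable def tgt {L : ℕ} (h : List Bool) (τ : Bool) (l : {l : List Bool // l.length ≤ L}) :
    X L :=
  if τ = false ∧ l.1 = h then Sum.inl true else Sum.inr (τ, l, 0)

theorem tgt_inj {L : ℕ} (h : List Bool) {τ τ' : Bool} {l l' : {l : List Bool // l.length ≤ L}}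
    (e : tgt h τ l = tgt h τ' l') : τ = τ' ∧ l = l' := by
  unfold tgt at e
  split_ifs at e with h1 h2 h2
  · exact ⟨h1.1.trans h2.1.symm, Subtype.ext (h1.2.trans h2.2.symm)⟩
  · simp only [Sum.inr.injEq, Prod.mk.injEq] at e
    exact ⟨e.1, e.2.1⟩

open Classical in
/-- The partial map which will be extended to the permutation `a`. -/
noncomputable def fa (L : ℕ) (h : List Bool) : X L → X L
  | Sum.inl τ => tgt h τ ⟨[], by simp⟩
  | Sum.inr (τ, l, e) => if hl : l.1.length < L then
      tgt h τ ⟨decide (e = 1) :: l.1, by simpa using hl⟩ else Sum.inl τ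

/-- Its domain. -/
def da (L : ℕ) : Set (X L) :=
  {x | match x with
    | Sum.inl _ => True
    | Sum.inr (_, l, e) => l.1.length < L ∧ e ≠ 0}

theorem fa_injOn (L : ℕ) (h : List Bool) : Set.InjOn (fa L h) (da L) := by
  have h3 : ∀ e e' : ZMod 3, e ≠ 0 → e' ≠ 0 → decide (e = 1) = decide (e' = 1) → e = e' := by
    decide
  rintro (τ | ⟨τ, l, e⟩) hx (τ' | ⟨τ', l', e'⟩) hy hxy
  · have := tgt_inj h hxy
    rw [this.1]
  · have hy' : l'.1.length < L ∧ e' ≠ 0 := hy
    simp only [fa] at hxy
    rw [dif_pos hy'.1] at hxy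
    have := (tgt_inj h hxy).2
    simp at this
  · have hx' : l.1.length < L ∧ e ≠ 0 := hx
    simp only [fa] at hxy
    rw [dif_pos hx'.1] at hxy
    have := (tgt_inj h hxy).2
    simp at this
  · have hx' : l.1.length < L ∧ e ≠ 0 := hx
    have hy' : l'.1.length < L ∧ e' ≠ 0 := hy
    simp only [fa] at hxy
    rw [dif_pos hx'.1, dif_pos hy'.1] at hxy
    have h1 := tgt_inj h hxy
    have h2 := congrArg Subtype.val h1.2
    simp only [List.cons.injEq] at h2
    have h4 := h3 e e' hx'.2 hy'.2 h2.1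
    rw [h1.1, h4, Subtype.ext h2.2]

/-- The permutation `a` (depending on the word `h`). -/
noncomputable def pa (L : ℕ) (h : List Bool) : Perm (X L) :=
  (exists_perm_extend (da L) (fa L h) (fa_injOn L h)).choose

theorem pa_spec (L : ℕ) (h : List Bool) {x : X L} (hx : x ∈ da L) : pa L h x = fa L h x :=
  (exists_perm_extend (da L) (fa L h) (fa_injOn L h)).choose_spec x hx

/-- The element `u(l)`. -/
def uu {G : Type*} [Group G] (a b : G) : List Bool → G
  | [] => a
  | e :: l => a * (if e then b else b⁻¹) * uu a b l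

theorem uu_root {L : ℕ} {h : List Bool} (hh : h.length = L) (τ : Bool) (l : List Bool)
    (hl : l.length ≤ L) :
    uu (pa L h) (pb L) l (Sum.inl τ) = tgt h τ ⟨l, hl⟩ := by
  induction l with
  | nil => exact pa_spec L h (x := Sum.inl τ) trivial
  | cons e l ih =>
    have hl' : l.length < L := by simpa using hl
    have h1 : tgt h τ ⟨l, hl'.le⟩ = Sum.inr (τ, ⟨l, hl'.le⟩, 0) := by
      unfold tgt
      rw [if_neg]
      rintro ⟨-, h2⟩
      simp only at h2
      rw [h2] at hl'
      omega
    have h2 : ∀ e' : ZMod 3, e' ≠ 0 → pa L h (Sum.inr (τ, ⟨l, hl'.le⟩, e')) =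
        tgt h τ ⟨decide (e' = 1) :: l, by simpa using hl'⟩ := by
      intro e' he'
      rw [pa_spec L h (x := Sum.inr (τ, ⟨l, hl'.le⟩, e')) ⟨hl', he'⟩]
      simp only [fa]
      rw [dif_pos hl']
    rw [uu, Perm.mul_apply, Perm.mul_apply, ih hl'.le, h1]
    cases e with
    | true =>
      rw [if_pos rfl, pb_inr, h2 _ (by decide)]
      congr 1
    | false =>
      rw [if_neg (by simp), pb_inv_inr, h2 _ (by decide)]
      congr 1

theorem pb_cube_inr (L : ℕ) (z) : (pb L ^ 3) (Sum.inr z) = Sum.inr z := by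
  rcases z with ⟨τ, l, e⟩
  rw [pow_succ, pow_two, Perm.mul_apply, Perm.mul_apply, pb_inr, pb_inr, pb_inr]
  have : e + 1 + 1 + 1 = e := by
    revert e
    decide
  rw [this]

theorem pb_cube_inl (L : ℕ) (τ : Bool) : (pb L ^ 3) (Sum.inl τ) = Sum.inl (!τ) := by
  rw [pow_succ, pow_two, Perm.mul_apply, Perm.mul_apply, pb_inl, pb_inl, pb_inl]
  simp

/-- The conjugate `u b³ u⁻¹` commutes with `b³` exactly if `l ≠ h`. -/
theorem commute_iff {L : ℕ} {h l : List Bool} (hh : h.length = L) (hl : l.length = L) :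
    Commute (uu (pa L h) (pb L) l * pb L ^ 3 * (uu (pa L h) (pb L) l)⁻¹) (pb L ^ 3) ↔ l ≠ h := by
  set u := uu (pa L h) (pb L) l with hu
  have hx : ∀ τ, u (Sum.inl τ) = tgt h τ ⟨l, hl.le⟩ := fun τ => uu_root hh τ l hl.le
  have hfix : ∀ x : X L, (∀ τ, x ≠ u (Sum.inl τ)) → (u * pb L ^ 3 * u⁻¹) x = x := by
    intro x hx
    rw [Perm.mul_apply, Perm.mul_apply]
    have h1 : ∀ τ, u⁻¹ x ≠ Sum.inl τ := by
      intro τ h2
      apply hx τ
      rw [← h2]; exact (Equiv.apply_symm_apply u x).symm
    rcases h3 : u⁻¹ x with τ | z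
    · exact absurd h3 (h1 τ)
    · rw [pb_cube_inr, ← h3]; exact Equiv.apply_symm_apply u x
  constructor
  · intro hc hlh
    subst hlh
    have h0 : u (Sum.inl false) = Sum.inl true := by
      rw [hx]
      simp [tgt]
    have h1 : u (Sum.inl true) = Sum.inr (true, ⟨l, hl.le⟩, 0) := by
      rw [hx]
      simp [tgt]
    have e1 : ((u * pb L ^ 3 * u⁻¹) * pb L ^ 3) (Sum.inl false) =
        Sum.inr (true, ⟨l, hl.le⟩, 0) := by
      rw [Perm.mul_apply, pb_cube_inl, Perm.mul_apply, Perm.mul_apply]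
      have : u⁻¹ (Sum.inl (!false)) = Sum.inl false := by
        rw [Perm.inv_eq_iff_eq, h0]
        rfl
      rw [this, pb_cube_inl]
      exact h1
    have e2 : (pb L ^ 3 * (u * pb L ^ 3 * u⁻¹)) (Sum.inl false) = Sum.inl true := by
      rw [Perm.mul_apply, hfix, pb_cube_inl]
      · rfl
      · intro τ
        cases τ
        · rw [h0]
          simp
        · rw [h1]
          simp
    have h2 := congrArg (fun σ : Perm (X L) => σ (Sum.inl false)) hc.eq
    rw [e1, e2] at h2
    exact absurd h2 (by simp)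
  · intro hlh
    apply Perm.Disjoint.commute
    rintro (τ | z)
    · left
      apply hfix
      intro τ'
      rw [hx]
      unfold tgt
      rw [if_neg (fun h2 => hlh h2.2)]
      simp
    · right
      exact pb_cube_inr L z

section group

variable {d : ℕ}

/-- The word `u(l)`. -/
def U (i₀ i₁ : Fin d) : List Bool → List (Letter d)
  | [] => [(i₀, true)]
  | e :: l => (i₀, true) :: (i₁, e) :: U i₀ i₁ l

theorem length_U (i₀ i₁ : Fin d) (l : List Bool) : (U i₀ i₁ l).length = 2 * l.length + 1 := by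
  induction l with
  | nil => rfl
  | cons e l ih => simp [U, ih]; ring

theorem ev_U {G : Type*} [Group G] (S : Fin d → G) (i₀ i₁ : Fin d) (l : List Bool) :
    ev S (U i₀ i₁ l) = uu (S i₀) (S i₁) l := by
  induction l with
  | nil => simp [U, uu, ev]
  | cons e l ih =>
    rw [U, uu, ev_cons, ev_cons, ih]
    simp [mul_assoc]

/-- The word `b³`. -/
def T (i₁ : Fin d) : List (Letter d) := [(i₁, true), (i₁, true), (i₁, true)]

theorem ev_T {G : Type*} [Group G] (S : Fin d → G) (i₁ : Fin d) : ev S (T i₁) = S i₁ ^ 3 := by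
  simp [T, ev, pow_succ, mul_assoc]

/-- The word `u b³ u⁻¹ b³`. -/
def W₁ (i₀ i₁ : Fin d) (l : List Bool) : List (Letter d) :=
  U i₀ i₁ l ++ T i₁ ++ winv (U i₀ i₁ l) ++ T i₁

/-- The word `b³ u b³ u⁻¹`. -/
def W₂ (i₀ i₁ : Fin d) (l : List Bool) : List (Letter d) :=
  T i₁ ++ (U i₀ i₁ l ++ T i₁ ++ winv (U i₀ i₁ l))

theorem length_W₁ (i₀ i₁ : Fin d) (l : List Bool) :
    (W₁ i₀ i₁ l).length = 4 * l.length + 8 := by
  simp [W₁, length_U, T]
  ring

theorem length_W₂ (i₀ i₁ : Fin d) (l : List Bool) :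
    (W₂ i₀ i₁ l).length = 4 * l.length + 8 := by
  simp [W₂, length_U, T]
  ring

theorem ev_W_iff {G : Type*} [Group G] (S : Fin d → G) (i₀ i₁ : Fin d) (l : List Bool) :
    ev S (W₁ i₀ i₁ l) = ev S (W₂ i₀ i₁ l) ↔
      Commute (uu (S i₀) (S i₁) l * S i₁ ^ 3 * (uu (S i₀) (S i₁) l)⁻¹) (S i₁ ^ 3) := by
  rw [W₁, W₂, ev_append, ev_append, ev_append, ev_append, ev_append, ev_append, ev_winv, ev_U,
    ev_T]
  exact Iff.rfl

/-- The generators of the group attached to a set `A` of words of length `L`. -/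
noncomputable def gens (L : ℕ) (A : Set (List.Vector Bool L)) :
    Fin d → (List.Vector Bool L → Perm (X L)) := by
  classical
  exact fun i h => if h ∈ A then 1 else
    if (i : ℕ) = 0 then pa L h.toList else if (i : ℕ) = 1 then pb L else 1

/-- The same generators in the subgroup they generate. -/
noncomputable def gens' (L : ℕ) (A : Set (List.Vector Bool L)) :
    Fin d → Subgroup.closure (Set.range (gens (d := d) L A)) :=
  fun i => ⟨gens L A i, Subgroup.subset_closure ⟨i, rfl⟩⟩

theorem gens'_closure (L : ℕ) (A : Set (List.Vector Bool L)) :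
    Subgroup.closure (Set.range (gens' (d := d) L A)) = ⊤ := by
  rw [← Subgroup.closure_closure_coe_preimage (k := Set.range (gens (d := d) L A))]
  congr 1
  ext x
  constructor
  · rintro ⟨i, rfl⟩
    exact ⟨i, rfl⟩
  · rintro ⟨i, hi⟩
    exact ⟨i, Subtype.ext hi⟩

theorem ev_gens' (L : ℕ) (A : Set (List.Vector Bool L)) (u v : List (Letter d)) :
    ev (gens' L A) u = ev (gens' L A) v ↔
      ∀ h, ev (fun i => gens L A i h) u = ev (fun i => gens L A i h) v := by
  rw [← (Subgroup.subtype_injective (Subgroup.closure (Set.range (gens (d := d) L A)))).eq_iff,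
    ev_map, ev_map]
  have h1 : ∀ w : List (Letter d), ∀ h, ev (fun i => gens L A i h) w =
      ev (fun i => (Subgroup.closure (Set.range (gens (d := d) L A))).subtype (gens' L A i)) w h := by
    intro w h
    exact (ev_map (Pi.evalMonoidHom (fun _ : List.Vector Bool L => Perm (X L)) h)
      (gens L A) w).symm
  constructor
  · intro e h
    rw [h1, h1, e]
  · intro e
    funext h
    rw [← h1, ← h1, e h]

theorem ev_one_gens {G : Type*} [Group G] (w : List (Letter d)) :
    ev (fun _ => (1 : G)) w = 1 := by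
  induction w with
  | nil => simp
  | cons x w ih => rw [ev_cons, ih]; simp

theorem relation_iff (L : ℕ) (A : Set (List.Vector Bool L)) (i₀ i₁ : Fin d) (h0 : (i₀ : ℕ) = 0)
    (h1 : (i₁ : ℕ) = 1) (l : List.Vector Bool L) :
    ev (gens' L A) (W₁ i₀ i₁ l.toList) = ev (gens' L A) (W₂ i₀ i₁ l.toList) ↔ l ∈ A := by
  rw [ev_gens']
  have hA : ∀ h ∈ A, (fun i : Fin d => gens L A i h) = fun _ => 1 := by
    intro h hh
    funext i
    simp [gens, hh]
  have hn : ∀ h ∉ A, (ev (fun i : Fin d => gens L A i h) (W₁ i₀ i₁ l.toList) =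
      ev (fun i : Fin d => gens L A i h) (W₂ i₀ i₁ l.toList) ↔ l ≠ h) := by
    intro h hh
    rw [ev_W_iff]
    have e0 : gens L A i₀ h = pa L h.toList := by simp [gens, hh, h0]
    have e1 : gens L A i₁ h = pb L := by simp [gens, hh, h1]
    rw [e0, e1, commute_iff h.toList_length l.toList_length]
    constructor
    · intro h2 h3
      exact h2 (by rw [h3])
    · intro h2 h3
      exact h2 (List.Vector.toList_injective h3)
  constructor
  · intro h2
    by_contra h3
    exact (hn l h3).1 (h2 l) rfl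
  · intro h2 h
    by_cases h3 : h ∈ A
    · rw [hA h h3, ev_one_gens, ev_one_gens]
    · rw [hn h h3]
      rintro rfl
      exact h3 h2

end group

theorem lower_bound {d n L : ℕ} (hd : 2 ≤ d) (hn : 4 * L + 8 ≤ n) : 2 ^ 2 ^ L ≤ g d n := by
  classical
  let i₀ : Fin d := ⟨0, by omega⟩
  let i₁ : Fin d := ⟨1, by omega⟩
  let Φ : Set (List.Vector Bool L) → Quotient (lsetoid d) := fun A =>
    Quotient.mk (lsetoid d) (ball (Subgroup.closure (Set.range (gens (d := d) L A))) (gens' L A) n)
  have hΦ : Function.Injective Φ := by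
    intro A B hAB
    obtain ⟨φ⟩ := Quotient.exact hAB
    ext l
    rw [← relation_iff L A i₀ i₁ rfl rfl l, ← relation_iff L B i₀ i₁ rfl rfl l]
    apply iso_eq_iff φ
    · rw [length_W₁, l.toList_length]
      exact hn
    · rw [length_W₂, l.toList_length]
      exact hn
  have h1 : (Set.univ : Set (Set (List.Vector Bool L))).ncard ≤ g d n := by
    apply Set.ncard_le_ncard_of_injOn Φ _ hΦ.injOn (finite_finBalls d n)
    intro A _
    exact ⟨_, inferInstance, gens' L A, inferInstance, gens'_closure L A, rfl⟩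
  rw [Set.ncard_univ, Nat.card_eq_fintype_card, Fintype.card_set, card_vector,
    Fintype.card_bool] at h1
  exact h1

end Q17.Balls
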