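import Pool.Agent.Q17.Balls.Lower

/-!
# One generator: `f_1(n) = g_1(n) = 2n+2`; and the asymptotic form of the bounds for `d ≥ 2`
-/

namespace Q17.Balls

theorem iso_edge_iff {d n : ℕ} {G G' : Type} [Group G] [Group G'] {S : Fin d → G}
    {S' : Fin d → G'} (φ : LGraph.Iso (ball G S n) (ball G' S' n)) (u v : List (Letter d))
    (hu : u.length ≤ n) (hv : v.length ≤ n) (i : Fin d) :
    ev S v = ev S u * S i ↔ ev S' v = ev S' u * S' i := by
  have h1 := iso_ev φ u hu
  have h2 := iso_ev φ v hv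
  have h3 := φ.edge i (pt S u hu) (pt S v hv)
  rw [edge_iff, edge_iff, h1, h2, val_pt, val_pt] at h3
  exact h3

/-- The exponent sum of a word in one generator. -/
def expo (w : List (Letter 1)) : ℤ := (w.map (fun x => if x.2 then (1 : ℤ) else -1)).sum

theorem ev_one {G : Type*} [Group G] (S : Fin 1 → G) (w : List (Letter 1)) :
    ev S w = S 0 ^ expo w := by
  induction w with
  | nil => simp [expo]
  | cons x w ih =>
    rcases x with ⟨i, b⟩
    obtain rfl : i = 0 := Subsingleton.elim _ _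
    rw [ev_cons, ih]
    cases b
    · simp [expo, zpow_add]
    · simp [expo, zpow_add]

theorem abs_expo_le (w : List (Letter 1)) : |expo w| ≤ w.length := by
  induction w with
  | nil => simp [expo]
  | cons x w ih =>
    have h1 : expo (x :: w) = (if x.2 then (1 : ℤ) else -1) + expo w := by simp [expo]
    rw [h1]
    refine (abs_add_le _ _).trans ?_
    have h2 : |(if x.2 then (1 : ℤ) else -1)| = 1 := by split_ifs <;> simp
    rw [h2, List.length_cons]
    push_cast
    linarith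

theorem ev_replicate {G : Type*} [Group G] (S : Fin 1 → G) (k : ℕ) :
    ev S (List.replicate k (0, true)) = S 0 ^ k := by
  simp [ev]

theorem ev_replicate' {G : Type*} [Group G] (S : Fin 1 → G) (k : ℕ) :
    ev S (List.replicate k (0, false)) = (S 0 ^ k)⁻¹ := by
  simp [ev]

/-- The cyclic group of order `m`. -/
abbrev Cyc (m : ℕ) : Type := Multiplicative (ZMod m)

/-- Its marking. -/
def cgen (m : ℕ) : Fin 1 → Cyc m := fun _ => Multiplicative.ofAdd 1

/-- The class of the ball of the cyclic group of order `m`. -/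
def cls (n m : ℕ) : Quotient (lsetoid 1) := Quotient.mk (lsetoid 1) (ball (Cyc m) (cgen m) n)

theorem cgen_closure (m : ℕ) : Subgroup.closure (Set.range (cgen m)) = ⊤ := by
  rw [eq_top_iff]
  rintro x -
  have h1 : cgen m 0 ∈ Subgroup.closure (Set.range (cgen m)) :=
    Subgroup.subset_closure ⟨0, rfl⟩
  obtain ⟨k, hk⟩ := ZMod.intCast_surjective (Multiplicative.toAdd x)
  have h2 : x = cgen m 0 ^ k := by
    apply Multiplicative.toAdd.injective
    rw [← hk, toAdd_zpow]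
    simp [cgen]
  rw [h2]
  exact zpow_mem h1 k

theorem cgen_zpow {m : ℕ} (k : ℤ) : cgen m 0 ^ k = 1 ↔ (m : ℤ) ∣ k := by
  rw [← ZMod.intCast_zmod_eq_zero_iff_dvd]
  · rw [← Multiplicative.toAdd.injective.eq_iff, toAdd_zpow]
    simp [cgen]

theorem cls_injOn (n : ℕ) : Set.InjOn (cls n) (Set.Icc 1 (2 * n + 2)) := by
  have key : ∀ m m' : ℕ, 1 ≤ m → m < m' → m' ≤ 2 * n + 2 → cls n m ≠ cls n m' := by
    intro m m' hm hlt hm' h
    obtain ⟨φ⟩ := Quotient.exact h
    set k := min n (m - 1) with hk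
    have h1 := iso_edge_iff φ (List.replicate k (0, true))
      (List.replicate (m - 1 - k) (0, false)) (by simp [hk]) (by simp; omega) 0
    rw [ev_replicate, ev_replicate', ev_replicate, ev_replicate'] at h1
    have h2 : ∀ q : ℕ, ((cgen q 0 ^ (m - 1 - k))⁻¹ = cgen q 0 ^ k * cgen q 0) ↔ (q : ℤ) ∣ m := by
      intro q
      rw [← cgen_zpow, eq_comm, ← mul_inv_eq_one, inv_inv, ← pow_succ, ← pow_add]
      have : k + 1 + (m - 1 - k) = m := by omega
      rw [this, zpow_natCast]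
    rw [h2, h2] at h1
    have h3 := h1.1 (dvd_refl _)
    have h4 := Int.le_of_dvd (by exact_mod_cast hm) h3
    have : m' ≤ m := by exact_mod_cast h4
    omega
  intro m hm m' hm' h
  rcases lt_trichotomy m m' with h1 | h1 | h1
  · exact absurd h (key m m' hm.1 h1 hm'.2)
  · exact h1
  · exact absurd h.symm (key m' m hm'.1 h1 hm.2)

theorem cls_surj (n : ℕ) {G : Type} [Group G] (S : Fin 1 → G) :
    ∃ m ∈ Set.Icc 1 (2 * n + 2), Quotient.mk (lsetoid 1) (ball G S n) = cls n m := by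
  have main : ∀ m : ℕ, (∀ k : ℤ, |k| ≤ 2 * n + 1 → (S 0 ^ k = 1 ↔ (m : ℤ) ∣ k)) →
      Quotient.mk (lsetoid 1) (ball G S n) = cls n m := by
    intro m hm
    apply class_eq_of_rel
    ext ⟨w, hw⟩
    have h1 : |expo w| ≤ 2 * n + 1 := (abs_expo_le w).trans (by exact_mod_cast hw)
    change ev S w = 1 ↔ ev (cgen m) w = 1
    rw [ev_one, ev_one, hm _ h1, cgen_zpow]
  by_cases h : 1 ≤ orderOf (S 0) ∧ orderOf (S 0) ≤ 2 * n + 1
  · refine ⟨orderOf (S 0), ⟨h.1, by omega⟩, main _ ?_⟩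
    intro k _
    exact orderOf_dvd_iff_zpow_eq_one.symm
  · refine ⟨2 * n + 2, ⟨by omega, le_rfl⟩, main _ ?_⟩
    intro k hk
    rw [← orderOf_dvd_iff_zpow_eq_one]
    have h1 : ∀ q : ℕ, (q = 0 ∨ 2 * n + 2 ≤ q) → ((q : ℤ) ∣ k ↔ k = 0) := by
      intro q hq
      constructor
      · intro hd
        rcases hq with rfl | hq
        · simpa using hd
        · apply Int.eq_zero_of_abs_lt_dvd hd
          have : (2 * n + 2 : ℤ) ≤ q := by exact_mod_cast hq
          linarith
      · rintro rfl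
        exact dvd_zero _
    rw [h1 _ (by omega), h1 _ (Or.inr le_rfl)]

theorem card_one (n : ℕ) : f 1 n = 2 * n + 2 ∧ g 1 n = 2 * n + 2 := by
  have h1 : allBalls 1 n = cls n '' Set.Icc 1 (2 * n + 2) := by
    ext c
    constructor
    · rintro ⟨G, hG, S, -, rfl⟩
      obtain ⟨m, hm, h⟩ := cls_surj n S
      exact ⟨m, hm, h.symm⟩
    · rintro ⟨m, -, rfl⟩
      exact ⟨Cyc m, inferInstance, cgen m, cgen_closure m, rfl⟩
  have h2 : finBalls 1 n = cls n '' Set.Icc 1 (2 * n + 2) := by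
    apply Set.Subset.antisymm
    · rw [← h1]
      exact finBalls_subset 1 n
    · rintro c ⟨m, hm, rfl⟩
      have : NeZero m := ⟨by have := hm.1; omega⟩
      exact ⟨Cyc m, inferInstance, cgen m, inferInstance, cgen_closure m, rfl⟩
  have h3 : (cls n '' Set.Icc 1 (2 * n + 2)).ncard = 2 * n + 2 := by
    rw [(cls_injOn n).ncard_image, Set.ncard_eq_toFinset_card']
    simp
  exact ⟨by rw [f, h1, h3], by rw [g, h2, h3]⟩

theorem lower_div {d n : ℕ} (hd : 2 ≤ d) (hn : 8 ≤ n) : 2 ^ 2 ^ ((n - 8) / 4) ≤ g d n :=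
  lower_bound hd (by omega)

theorem two_pow_eq_exp (k : ℕ) : (2 : ℝ) ^ k = Real.exp ((k : ℝ) * Real.log 2) := by
  rw [Real.exp_nat_mul, Real.exp_log two_pos]

theorem exp_lower {d n : ℕ} (hd : 2 ≤ d) (hn : 22 ≤ n) :
    Real.exp (Real.exp ((Real.log 2 / 16) * n)) ≤ (g d n : ℝ) := by
  have h1 : ((2 ^ 2 ^ ((n - 8) / 4) : ℕ) : ℝ) ≤ g d n := by
    exact_mod_cast lower_div hd (by omega)
  refine le_trans ?_ h1
  push_cast
  have hlog2 : (0.6931471803 : ℝ) < Real.log 2 := Real.log_two_gt_d9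
  set k := (n - 8) / 4 with hk
  rw [two_pow_eq_exp]
  apply Real.exp_le_exp.2
  push_cast
  rw [two_pow_eq_exp]
  have hn' : (22 : ℝ) ≤ n := by exact_mod_cast hn
  have hk' : (n : ℝ) / 8 ≤ k := by
    have h2 : n ≤ 8 * k := by omega
    have h3 : (n : ℝ) ≤ 8 * k := by exact_mod_cast h2
    linarith
  have h4 : Real.exp ((n : ℝ) / 8 * Real.log 2) ≤ Real.exp ((k : ℝ) * Real.log 2) := by
    apply Real.exp_le_exp.2
    apply mul_le_mul_of_nonneg_right hk'
    linarith
  have h5 : Real.exp ((n : ℝ) / 8 * Real.log 2) =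
      Real.exp ((Real.log 2 / 16) * n) * Real.exp ((Real.log 2 / 16) * n) := by
    rw [← Real.exp_add]
    congr 1
    ring
  have h6 : (Real.log 2 / 16) * n + 1 ≤ Real.exp ((Real.log 2 / 16) * n) :=
    Real.add_one_le_exp _
  have h7 : 1 ≤ Real.exp ((Real.log 2 / 16) * n) * Real.log 2 := by
    have h8 : (1.9 : ℝ) ≤ Real.exp ((Real.log 2 / 16) * n) := by nlinarith
    nlinarith
  have h9 : 0 < Real.exp ((Real.log 2 / 16) * n) := Real.exp_pos _
  calc Real.exp ((Real.log 2 / 16) * n)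
      ≤ Real.exp ((Real.log 2 / 16) * n) * (Real.exp ((Real.log 2 / 16) * n) * Real.log 2) := by
        nlinarith
    _ = Real.exp ((n : ℝ) / 8 * Real.log 2) * Real.log 2 := by rw [h5]; ring
    _ ≤ Real.exp ((k : ℝ) * Real.log 2) * Real.log 2 :=
        mul_le_mul_of_nonneg_right h4 (by linarith)

theorem exp_upper {d n : ℕ} (hn : 1 ≤ n) :
    (f d n : ℝ) ≤ Real.exp (Real.exp ((3 * Real.log (2 * d + 1)) * n)) := by
  have h1 : (f d n : ℝ) ≤ ((2 ^ (2 * d + 1) ^ (2 * n + 1) : ℕ) : ℝ) := by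
    exact_mod_cast f_le d n
  refine h1.trans ?_
  push_cast
  rw [two_pow_eq_exp]
  apply Real.exp_le_exp.2
  push_cast
  have hd : (1 : ℝ) ≤ 2 * (d : ℝ) + 1 := by
    have : (0 : ℝ) ≤ d := Nat.cast_nonneg d
    linarith
  have h2 : Real.exp ((3 * Real.log (2 * d + 1)) * n) = (2 * (d : ℝ) + 1) ^ (3 * n) := by
    rw [show (3 * Real.log (2 * (d : ℝ) + 1)) * n = ((3 * n : ℕ) : ℝ) * Real.log (2 * d + 1) by
      push_cast; ring, Real.exp_nat_mul, Real.exp_log (by linarith)]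
  rw [h2]
  have h3 : (2 * (d : ℝ) + 1) ^ (2 * n + 1) ≤ (2 * (d : ℝ) + 1) ^ (3 * n) :=
    pow_le_pow_right₀ hd (by omega)
  have h4 : Real.log 2 ≤ 1 := by
    have := Real.log_two_lt_d9
    linarith
  have h5 : 0 < (2 * (d : ℝ) + 1) ^ (2 * n + 1) := by positivity
  nlinarith

end Q17.Balls
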