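import Pool.Agent.Q17.Balls.Basic

/-!
# The upper bound: finiteness and `f_d(n) ≤ 2 ^ ((2d+1)^(2n+1))`
-/

namespace Q17.Balls

/-- Words of length at most `N`. -/
abbrev ShortWord (d N : ℕ) := {w : List (Letter d) // w.length ≤ N}

theorem shortWord_embed (d N : ℕ) :
    Function.Injective (fun (w : ShortWord d N) (i : Fin N) => w.1[(i : ℕ)]?) := by
  intro u v h
  apply Subtype.ext
  apply List.ext_getElem?
  intro i
  by_cases hi : i < N
  · exact congrFun h ⟨i, hi⟩
  · rw [List.getElem?_eq_none (by have := u.2; omega), List.getElem?_eq_none (by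
      have := v.2; omega)]

instance (d N : ℕ) : Finite (ShortWord d N) := Finite.of_injective _ (shortWord_embed d N)

theorem card_shortWord (d N : ℕ) : Nat.card (ShortWord d N) ≤ (2 * d + 1) ^ N := by
  have h := Nat.card_le_card_of_injective _ (shortWord_embed d N)
  refine h.trans (le_of_eq ?_)
  rw [Nat.card_eq_fintype_card]
  simp [mul_comm]

/-- The relations of length at most `N` of a marked group. -/
def rel {d : ℕ} (N : ℕ) {G : Type} [Group G] (S : Fin d → G) : Set (ShortWord d N) :=
  {w | ev S w.1 = 1}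

theorem class_eq_of_rel {d n : ℕ} {G G' : Type} [Group G] [Group G'] {S : Fin d → G}
    {S' : Fin d → G'} (h : rel (2 * n + 1) S = rel (2 * n + 1) S') :
    Quotient.mk (lsetoid d) (ball G S n) = Quotient.mk (lsetoid d) (ball G' S' n) := by
  apply Quotient.sound
  apply iso_of_rel
  intro w hw
  have h1 : ((⟨w, hw⟩ : ShortWord d (2 * n + 1)) ∈ rel (2 * n + 1) S) ↔
    ((⟨w, hw⟩ : ShortWord d (2 * n + 1)) ∈ rel (2 * n + 1) S') := by rw [h]
  exact h1

theorem exists_code (d n : ℕ) : ∃ κ : Quotient (lsetoid d) → Set (ShortWord d (2 * n + 1)),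
    Set.InjOn κ (allBalls d n) := by
  classical
  let κ : Quotient (lsetoid d) → Set (ShortWord d (2 * n + 1)) := fun c =>
    if h : c ∈ allBalls d n then
      @rel d (2 * n + 1) h.choose h.choose_spec.choose h.choose_spec.choose_spec.choose
    else ∅
  refine ⟨κ, ?_⟩
  intro c hc c' hc' h
  simp only [κ] at h
  rw [dif_pos hc, dif_pos hc'] at h
  rw [hc.choose_spec.choose_spec.choose_spec.2, hc'.choose_spec.choose_spec.choose_spec.2]
  exact @class_eq_of_rel d n _ _ hc.choose_spec.choose hc'.choose_spec.choose _ _ h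

theorem finite_allBalls (d n : ℕ) : (allBalls d n).Finite := by
  obtain ⟨κ, hκ⟩ := exists_code d n
  exact Set.Finite.of_finite_image (Set.toFinite _) hκ

theorem finite_finBalls (d n : ℕ) : (finBalls d n).Finite :=
  (finite_allBalls d n).subset (finBalls_subset d n)

theorem g_le_f (d n : ℕ) : g d n ≤ f d n :=
  Set.ncard_le_ncard (finBalls_subset d n) (finite_allBalls d n)

theorem f_le (d n : ℕ) : f d n ≤ 2 ^ (2 * d + 1) ^ (2 * n + 1) := by
  obtain ⟨κ, hκ⟩ := exists_code d n
  have h1 : f d n ≤ (Set.univ : Set (Set (ShortWord d (2 * n + 1)))).ncard :=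
    Set.ncard_le_ncard_of_injOn κ (fun _ _ => Set.mem_univ _) hκ (Set.toFinite _)
  rw [Set.ncard_univ] at h1
  refine h1.trans ?_
  have h2 : Nat.card (Set (ShortWord d (2 * n + 1))) = 2 ^ Nat.card (ShortWord d (2 * n + 1)) := by
    have := Fintype.ofFinite (ShortWord d (2 * n + 1))
    rw [Nat.card_eq_fintype_card, Nat.card_eq_fintype_card, Fintype.card_set]
  rw [h2]
  exact Nat.pow_le_pow_right (by norm_num) (card_shortWord d (2 * n + 1))

end Q17.Balls
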